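import Mathlib

/-!
# Digit words and their action on `ZMod p`

`val b w` is the number whose base-`b` digits, most significant first, are `w`.  Modulo a prime
`p` a word acts on `ZMod p` by an affine map; the map is a bijection or constant, so inserting
`m * p!` further copies of a word behind a copy of it does not change the action.
-/

set_option autoImplicit false

namespace Pool.Agent.LibPF14

open Nat

variable {b p : ℕ}

/-- The number whose base-`b` digits, most significant first, are the entries of `w`. -/
def val (b : ℕ) (w : List (Fin b)) : ℕ := w.foldl (fun (v : ℕ) (d : Fin b) => b * v + (d : ℕ)) 0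

/-- The action of a word on residues: reading further digits. -/
def act (b p : ℕ) (w : List (Fin b)) (r : ZMod p) : ZMod p :=
  w.foldl (fun (v : ZMod p) (d : Fin b) => (b : ZMod p) * v + ((d : ℕ) : ZMod p)) r

theorem act_append (u v : List (Fin b)) (r : ZMod p) :
    act b p (u ++ v) r = act b p v (act b p u r) := by
  simp [act, List.foldl_append]

theorem act_nil (r : ZMod p) : act b p [] r = r := rfl

theorem val_cast_aux (w : List (Fin b)) (n : ℕ) :
    ((w.foldl (fun (v : ℕ) (d : Fin b) => b * v + (d : ℕ)) n : ℕ) : ZMod p) = act b p w (n : ZMod p) := by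
  induction w generalizing n with
  | nil => rfl
  | cons d w ih =>
    rw [List.foldl_cons, ih]
    simp [act]

theorem val_cast (w : List (Fin b)) : ((val b w : ℕ) : ZMod p) = act b p w 0 := by
  have h := val_cast_aux (p := p) w 0
  rw [Nat.cast_zero] at h
  exact h

theorem act_affine (w : List (Fin b)) (r : ZMod p) :
    act b p w r = (b : ZMod p) ^ w.length * r + act b p w 0 := by
  induction w generalizing r with
  | nil => simp [act]
  | cons d w ih =>
    have h1 : ∀ s : ZMod p, act b p (d :: w) s =
        act b p w ((b : ZMod p) * s + ((d : ℕ) : ZMod p)) := fun s => rfl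
    rw [h1, h1, ih, ih ((b : ZMod p) * 0 + ((d : ℕ) : ZMod p)), List.length_cons, pow_succ]
    ring

/-- `n` copies of `v`. -/
def rep (v : List (Fin b)) (n : ℕ) : List (Fin b) := (List.replicate n v).flatten

theorem rep_zero (v : List (Fin b)) : rep v 0 = [] := rfl

theorem rep_succ (v : List (Fin b)) (n : ℕ) : rep v (n + 1) = v ++ rep v n := by
  simp [rep, List.replicate_succ]

theorem rep_succ' (v : List (Fin b)) (n : ℕ) : rep v (n + 1) = rep v n ++ v := by
  simp [rep, List.replicate_succ', List.flatten_append]

theorem rep_reverse (v : List (Fin b)) (n : ℕ) : (rep v n).reverse = rep v.reverse n := by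
  induction n with
  | zero => rfl
  | succ n ih => rw [rep_succ, List.reverse_append, ih, rep_succ']

theorem act_rep (v : List (Fin b)) (n : ℕ) (r : ZMod p) :
    act b p (rep v n) r = (act b p v)^[n] r := by
  induction n generalizing r with
  | zero => rfl
  | succ n ih => rw [rep_succ, act_append, ih, Function.iterate_succ_apply]

theorem iterate_factorial {α : Type*} [Fintype α] [DecidableEq α] (f : α → α)
    (hf : Function.Injective f) (m : ℕ) : f^[m * (Fintype.card α)!] = id := by
  have hb : Function.Bijective f := Finite.injective_iff_bijective.1 hf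
  have h1 : ∀ n : ℕ, ⇑((Equiv.ofBijective f hb) ^ n) = f^[n] := by
    intro n
    rw [Equiv.Perm.coe_pow]
    rfl
  rw [← h1, mul_comm, pow_mul]
  have h2 : (Equiv.ofBijective f hb : Equiv.Perm α) ^ (Fintype.card α)! = 1 := by
    rw [← Fintype.card_perm]
    exact pow_card_eq_one
  rw [h2, one_pow]
  rfl

theorem act_pump (hp : p.Prime) (v : List (Fin b)) (m : ℕ) (r : ZMod p) :
    act b p (rep v (1 + m * p !)) r = act b p v r := by
  have : Fact p.Prime := ⟨hp⟩
  rw [act_rep]
  by_cases h : (b : ZMod p) ^ v.length = 0
  · have hc : ∀ s t : ZMod p, act b p v s = act b p v t := by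
      intro s t
      rw [act_affine v s, act_affine v t, h]
      ring
    rw [add_comm, Function.iterate_succ_apply']
    exact hc _ _
  · have hinj : Function.Injective (act b p v) := by
      intro s t hst
      rw [act_affine v s, act_affine v t] at hst
      exact mul_left_cancel₀ h (add_right_cancel hst)
    rw [Function.iterate_add_apply]
    have h2 := iterate_factorial (act b p v) hinj m
    rw [ZMod.card p] at h2
    rw [h2]
    rfl

/-- Two words which act in the same way on `ZMod p`, and so do the reversed words. -/
def Sim (b p : ℕ) (u v : List (Fin b)) : Prop :=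
  (∀ r : ZMod p, act b p u r = act b p v r) ∧
    ∀ r : ZMod p, act b p u.reverse r = act b p v.reverse r

theorem Sim.refl (u : List (Fin b)) : Sim b p u u := ⟨fun _ => rfl, fun _ => rfl⟩

theorem Sim.trans {u v w : List (Fin b)} (h1 : Sim b p u v) (h2 : Sim b p v w) : Sim b p u w :=
  ⟨fun r => (h1.1 r).trans (h2.1 r), fun r => (h1.2 r).trans (h2.2 r)⟩

theorem Sim.append {u u' v v' : List (Fin b)} (h1 : Sim b p u u') (h2 : Sim b p v v') :
    Sim b p (u ++ v) (u' ++ v') := by
  refine ⟨fun r => ?_, fun r => ?_⟩
  · rw [act_append, act_append, h1.1, h2.1]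
  · rw [List.reverse_append, List.reverse_append, act_append, act_append, h2.2, h1.2]

theorem sim_pump (hp : p.Prime) (v : List (Fin b)) (m : ℕ) :
    Sim b p (rep v (1 + m * p !)) v := by
  refine ⟨act_pump hp v m, fun r => ?_⟩
  rw [rep_reverse]
  exact act_pump hp v.reverse m r

/-- the two reading orders -/
def read (msb : Bool) (b : ℕ) (w : List (Fin b)) : ℕ :=
  if msb then val b w else val b w.reverse

theorem Sim.dvd {u v : List (Fin b)} (h : Sim b p u v) (msb : Bool)
    (hv : p ∣ read msb b v) : p ∣ read msb b u := by
  rw [← ZMod.natCast_eq_zero_iff] at hv ⊢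
  cases msb
  · simp only [read, Bool.false_eq_true, if_false, val_cast] at hv ⊢
    rw [h.2, hv]
  · simp only [read, if_true, val_cast] at hv ⊢
    rw [h.1, hv]

end Pool.Agent.LibPF14
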