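import Mathlib
import Pool.Agent.LibPF14.Word

/-!
# Deterministic devices with a read-only unary input

The input tape holds `⊢ 1^k ⊣`.  A device has a set `C` of internal configurations (everything
except the position of the input head); a step is a function of the internal configuration and
the scanned symbol.  `Reach D k c x w`: on input `k` the device is at some time in the internal
configuration `c`, with its head on cell `x`, and has printed `w` so far.
-/

set_option autoImplicit false

namespace Pool.Agent.LibPF14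

open Nat

/-- The symbols of the input tape: left end marker, `1`, right end marker. -/
inductive Sym
  | left
  | one
  | right

/-- Head movements. -/
inductive Move
  | left
  | stay
  | right

/-- The displacement of a head movement. -/
def Move.val : Move → ℤ
  | .left => -1
  | .stay => 0
  | .right => 1

/-- A deterministic device with output digits in base `b`: `step c s = some (c', m, o)` means
that in the internal configuration `c` on the symbol `s` it prints the digits `o`, moves its input
head by `m` and passes to `c'`; `step c s = none` means that it halts. -/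
structure Device (b : ℕ) (C : Type*) where
  start : C
  step : C → Sym → Option (C × Move × List (Fin b))

/-- The symbol in cell `x` of the input tape: `⊢` in cell `0`, `1` in the cells `1, …, k`,
`⊣` in cell `k + 1`. -/
def sym (k : ℕ) (x : ℤ) : Sym := if x ≤ 0 then .left else if x ≤ k then .one else .right

/-- The new position of the input head; the head does not leave the cells `0, …, k + 1`. -/
def mv (k : ℕ) (x : ℤ) (m : Move) : ℤ := max 0 (min ((k : ℤ) + 1) (x + m.val))

variable {b : ℕ} {C : Type*}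

/-- On input `k` the device is at some time in the internal configuration `c`, with its input
head on cell `x`, and has printed `w` so far. -/
inductive Reach (D : Device b C) (k : ℕ) : C → ℤ → List (Fin b) → Prop
  | start : Reach D k D.start 0 []
  | step {c : C} {x : ℤ} {w : List (Fin b)} {c' : C} {m : Move} {o : List (Fin b)} :
      Reach D k c x w → D.step c (sym k x) = some (c', m, o) →
      Reach D k c' (mv k x m) (w ++ o)

/-- On input `k` the device halts with output `w`. -/
def Outputs (D : Device b C) (k : ℕ) (w : List (Fin b)) : Prop :=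
  ∃ c x, Reach D k c x w ∧ D.step c (sym k x) = none

/-- The internal configurations in which the device is on input `k`. -/
def visited (D : Device b C) (k : ℕ) : Set C := {c | ∃ x w, Reach D k c x w}

/-! ### Halting runs from an arbitrary configuration -/

/-- From `(c, x)` the device halts after `n` further steps, printing `w`. -/
inductive HRun (D : Device b C) (k : ℕ) : ℕ → C → ℤ → List (Fin b) → Prop
  | halt {c : C} {x : ℤ} : D.step c (sym k x) = none → HRun D k 0 c x []
  | step {n : ℕ} {c : C} {x : ℤ} {c' : C} {m : Move} {o w : List (Fin b)} :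
      D.step c (sym k x) = some (c', m, o) → HRun D k n c' (mv k x m) w →
      HRun D k (n + 1) c x (o ++ w)

theorem HRun.unique {D : Device b C} {k : ℕ} {n : ℕ} {c : C} {x : ℤ} {w : List (Fin b)}
    (h : HRun D k n c x w) : ∀ {n' : ℕ} {w' : List (Fin b)}, HRun D k n' c x w' → w = w' := by
  induction h with
  | halt h1 =>
    intro n' w' h'
    cases h' with
    | halt _ => rfl
    | step h2 _ => rw [h1] at h2; cases h2
  | step h1 _ ih =>
    intro n' w' h'
    cases h' with
    | halt h2 => rw [h1] at h2; cases h2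
    | step h2 h3 =>
      rw [h1] at h2
      cases h2
      rw [ih h3]

theorem HRun.of_reach {D : Device b C} {k : ℕ} {c : C} {x : ℤ} {w : List (Fin b)}
    (h : Reach D k c x w) : ∀ {n : ℕ} {w' : List (Fin b)}, HRun D k n c x w' →
      ∃ n', HRun D k n' D.start 0 (w ++ w') := by
  induction h with
  | start => exact fun {n w'} h' => ⟨n, h'⟩
  | step _ h1 ih =>
    intro n w' h'
    obtain ⟨n', h2⟩ := ih (HRun.step h1 h')
    exact ⟨n', by rw [List.append_assoc]; exact h2⟩

theorem HRun.outputs {D : Device b C} {k : ℕ} {n : ℕ} {c : C} {x : ℤ} {w : List (Fin b)}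
    (h : HRun D k n c x w) : ∀ {w0 : List (Fin b)}, Reach D k c x w0 → Outputs D k (w0 ++ w) := by
  induction h with
  | halt h1 =>
    intro w0 h0
    rw [List.append_nil]
    exact ⟨_, _, h0, h1⟩
  | step h1 _ ih =>
    intro w0 h0
    rw [← List.append_assoc]
    exact ih (Reach.step h0 h1)

theorem outputs_iff {D : Device b C} {k : ℕ} {w : List (Fin b)} :
    Outputs D k w ↔ ∃ n, HRun D k n D.start 0 w := by
  constructor
  · rintro ⟨c, x, h1, h2⟩
    obtain ⟨n, h3⟩ := HRun.of_reach h1 (HRun.halt h2)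
    exact ⟨n, by simpa using h3⟩
  · rintro ⟨n, h⟩
    have := h.outputs Reach.start
    simpa using this

theorem Outputs.unique {D : Device b C} {k : ℕ} {w w' : List (Fin b)}
    (h : Outputs D k w) (h' : Outputs D k w') : w = w' := by
  obtain ⟨n, h1⟩ := outputs_iff.1 h
  obtain ⟨n', h2⟩ := outputs_iff.1 h'
  exact h1.unique h2

/-! ### Runs on the inner part of the tape -/

/-- A run from `(c, x)` to `(c', x')` on a tape of ones, printing `w`, all of whose steps are made
on the cells `lo, …, hi`. -/
inductive Inner (D : Device b C) (lo hi : ℤ) : C → ℤ → C → ℤ → List (Fin b) → Prop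
  | refl {c : C} {x : ℤ} : Inner D lo hi c x c x []
  | step {c : C} {x : ℤ} {c1 : C} {m : Move} {o : List (Fin b)} {c' : C} {x' : ℤ}
      {w : List (Fin b)} : lo ≤ x → x ≤ hi → D.step c .one = some (c1, m, o) →
      Inner D lo hi c1 (x + m.val) c' x' w → Inner D lo hi c x c' x' (o ++ w)

theorem Move.val_le (m : Move) : m.val ≤ 1 := by cases m <;> simp [Move.val]

theorem Move.le_val (m : Move) : -1 ≤ m.val := by cases m <;> simp [Move.val]

theorem Inner.trans {D : Device b C} {lo hi : ℤ} {c c1 c2 : C} {x x1 x2 : ℤ}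
    {w w' : List (Fin b)} (h : Inner D lo hi c x c1 x1 w) :
    Inner D lo hi c1 x1 c2 x2 w' → Inner D lo hi c x c2 x2 (w ++ w') := by
  induction h with
  | refl => exact fun h' => h'
  | step h1 h2 h3 _ ih =>
    intro h'
    rw [List.append_assoc]
    exact Inner.step h1 h2 h3 (ih h')

theorem Inner.mono {D : Device b C} {lo hi lo' hi' : ℤ} {c c1 : C} {x x1 : ℤ}
    {w : List (Fin b)} (h : Inner D lo hi c x c1 x1 w) (hlo : lo' ≤ lo) (hhi : hi ≤ hi') :
    Inner D lo' hi' c x c1 x1 w := by
  induction h with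
  | refl => exact Inner.refl
  | step h1 h2 h3 _ ih => exact Inner.step (hlo.trans h1) (h2.trans hhi) h3 ih

theorem Inner.shift {D : Device b C} {lo hi : ℤ} (a : ℤ) {c c1 : C} {x x1 : ℤ}
    {w : List (Fin b)} (h : Inner D lo hi c x c1 x1 w) :
    Inner D (lo + a) (hi + a) c (x + a) c1 (x1 + a) w := by
  induction h with
  | refl => exact Inner.refl
  | step h1 h2 h3 _ ih =>
    refine Inner.step (by linarith) (by linarith) h3 ?_
    convert ih using 1
    ring

/-- Two runs from the same configuration which stop beyond the upper end coincide. -/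
theorem Inner.unique {D : Device b C} {lo hi : ℤ} {c c1 : C} {x x1 : ℤ}
    {w : List (Fin b)} (h : Inner D lo hi c x c1 x1 w) : hi < x1 →
    ∀ {c2 : C} {x2 : ℤ} {w' : List (Fin b)}, Inner D lo hi c x c2 x2 w' → hi < x2 →
      c1 = c2 ∧ x1 = x2 ∧ w = w' := by
  induction h with
  | refl =>
    intro hx c2 x2 w' h' hx'
    cases h' with
    | refl => exact ⟨rfl, rfl, rfl⟩
    | step h1 h2 _ _ => omega
  | step h1 h2 h3 _ ih =>
    intro hx c2 x2 w' h' hx'
    cases h' with
    | refl => omega
    | step h4 h5 h6 h7 =>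
      rw [h3] at h6
      cases h6
      obtain ⟨e1, e2, e3⟩ := ih hx h7 hx'
      exact ⟨e1, e2, by rw [e3]⟩

/-- The first visit of the cell `y`. -/
theorem Inner.split {D : Device b C} {lo hi : ℤ} {c c1 : C} {x x1 : ℤ}
    {w : List (Fin b)} (h : Inner D lo hi c x c1 x1 w) {y : ℤ} : x ≤ y → y ≤ x1 →
    ∃ e u v, Inner D lo (y - 1) c x e y u ∧ Inner D lo hi e y c1 x1 v ∧ w = u ++ v := by
  induction h with
  | @refl c x =>
    intro h1 h2
    obtain rfl : x = y := le_antisymm h1 h2
    exact ⟨c, [], [], Inner.refl, Inner.refl, rfl⟩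
  | @step c x c1 m o c' x' w h1 h2 h3 h4 ih =>
    intro hxy hyx
    rcases eq_or_lt_of_le hxy with rfl | hlt
    · exact ⟨c, [], o ++ w, Inner.refl, Inner.step h1 h2 h3 h4, rfl⟩
    · have hm := m.val_le
      obtain ⟨e, u, v, h5, h6, h7⟩ := ih (by omega) hyx
      exact ⟨e, o ++ u, v, Inner.step h1 (by omega) h3 h5, h6, by
        rw [h7, List.append_assoc]⟩

theorem sym_inner {k : ℕ} {x : ℤ} (h1 : 1 ≤ x) (h2 : x ≤ k) : sym k x = .one := by
  unfold sym
  rw [if_neg (by omega), if_pos h2]

theorem mv_inner {k : ℕ} {x : ℤ} (m : Move) (h1 : 1 ≤ x) (h2 : x ≤ k) :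
    mv k x m = x + m.val := by
  have h3 := m.val_le
  have h4 := m.le_val
  unfold mv
  rw [min_eq_right (by omega), max_eq_right (by omega)]

theorem Inner.hrun {D : Device b C} {k : ℕ} {c c1 : C} {x x1 : ℤ}
    {w : List (Fin b)} (h : Inner D 1 k c x c1 x1 w) : ∀ {n : ℕ} {w' : List (Fin b)},
    HRun D k n c1 x1 w' → ∃ n', HRun D k n' c x (w ++ w') := by
  induction h with
  | refl => exact fun {n w'} h' => ⟨n, h'⟩
  | step h1 h2 h3 _ ih =>
    intro n w' h'
    obtain ⟨n', h4⟩ := ih h'
    refine ⟨n' + 1, ?_⟩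
    rw [List.append_assoc]
    refine HRun.step (by rw [sym_inner h1 h2]; exact h3) ?_
    rw [mv_inner _ h1 h2]
    exact h4

theorem Inner.reach {D : Device b C} {k : ℕ} {c c1 : C} {x x1 : ℤ}
    {w : List (Fin b)} (h : Inner D 1 k c x c1 x1 w) : ∀ {w0 : List (Fin b)},
    Reach D k c x w0 → Reach D k c1 x1 (w0 ++ w) := by
  induction h with
  | refl => intro w0 h'; simpa using h'
  | step h1 h2 h3 _ ih =>
    intro w0 h'
    rw [← List.append_assoc]
    apply ih
    rw [← mv_inner _ h1 h2]
    exact Reach.step h' (by rw [sym_inner h1 h2]; exact h3)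

/-- A halting run which starts on an inner cell leaves the inner cells or halts there. -/
theorem HRun.decompose {D : Device b C} {k : ℕ} {n : ℕ} {c : C} {x : ℤ} {w : List (Fin b)}
    (h : HRun D k n c x w) : 1 ≤ x → x ≤ k →
    (∃ (e : C) (x1 : ℤ) (u v : List (Fin b)) (n' : ℕ), (x1 = 0 ∨ x1 = k + 1) ∧ n' ≤ n ∧
      Inner D 1 k c x e x1 u ∧ HRun D k n' e x1 v ∧ w = u ++ v) ∨
    (∃ (e : C) (x1 : ℤ), 1 ≤ x1 ∧ x1 ≤ k ∧ Inner D 1 k c x e x1 w ∧
      D.step e .one = none) := by
  induction h with
  | @halt c x h1 =>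
    intro h2 h3
    rw [sym_inner h2 h3] at h1
    exact Or.inr ⟨c, x, h2, h3, Inner.refl, h1⟩
  | @step n c x c' m o w h1 h2 ih =>
    intro h3 h4
    rw [sym_inner h3 h4] at h1
    rw [mv_inner _ h3 h4] at h2 ih
    have h5 := m.val_le
    have h6 := m.le_val
    by_cases h7 : 1 ≤ x + m.val ∧ x + m.val ≤ k
    · rcases ih h7.1 h7.2 with ⟨e, x1, u, v, n', h8, h9, h10, h11, h12⟩ | ⟨e, x1, h8, h9, h10, h11⟩
      · exact Or.inl ⟨e, x1, o ++ u, v, n', h8, h9.trans (Nat.le_succ n),
          Inner.step h3 h4 h1 h10, h11, by rw [h12, List.append_assoc]⟩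
      · exact Or.inr ⟨e, x1, h8, h9, Inner.step h3 h4 h1 h10, h11⟩
    · refine Or.inl ⟨c', x + m.val, o, w, n, by omega, Nat.le_succ n, ?_, h2, rfl⟩
      have := Inner.step h3 h4 h1 (Inner.refl (D := D) (lo := 1) (hi := k) (c := c')
        (x := x + m.val))
      simpa using this

/-! ### The mirror image -/

/-- The mirrored movement. -/
def Move.mirror : Move → Move
  | .left => .right
  | .stay => .stay
  | .right => .left

theorem Move.mirror_val (m : Move) : m.mirror.val = - m.val := by
  cases m <;> simp [Move.val, Move.mirror]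

/-- The device with mirrored movements (used on inner cells only). -/
def Device.mirror (D : Device b C) : Device b C where
  start := D.start
  step c s := (D.step c s).map fun r => (r.1, r.2.1.mirror, r.2.2)

theorem Inner.mirror {D : Device b C} {lo hi : ℤ} (a : ℤ) {c c1 : C} {x x1 : ℤ}
    {w : List (Fin b)} (h : Inner D lo hi c x c1 x1 w) :
    Inner D.mirror (a - hi) (a - lo) c (a - x) c1 (a - x1) w := by
  induction h with
  | refl => exact Inner.refl
  | @step c x c1 m o c' x' w h1 h2 h3 _ ih =>
    refine Inner.step (c1 := c1) (m := m.mirror) (by linarith) (by linarith) ?_ ?_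
    · simp [Device.mirror, h3]
    · rw [Move.mirror_val]
      convert ih using 1
      ring

theorem Inner.of_mirror {D : Device b C} {lo hi : ℤ} (a : ℤ) {c c1 : C} {x x1 : ℤ}
    {w : List (Fin b)} (h : Inner D.mirror lo hi c x c1 x1 w) :
    Inner D (a - hi) (a - lo) c (a - x) c1 (a - x1) w := by
  induction h with
  | refl => exact Inner.refl
  | @step c x c1 m o c' x' w h1 h2 h3 _ ih =>
    simp only [Device.mirror, Option.map_eq_some_iff] at h3
    obtain ⟨⟨c2, m2, o2⟩, h4, h5⟩ := h3
    simp only [Prod.mk.injEq] at h5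
    obtain ⟨rfl, rfl, rfl⟩ := h5
    refine Inner.step (c1 := c2) (m := m2) (by linarith) (by linarith) h4 ?_
    rw [Move.mirror_val] at ih
    convert ih using 1
    ring

/-! ### Traverses -/

theorem Inner.loop {D : Device b C} {lo hi y l : ℤ} {e : C} {v : List (Fin b)}
    (h : Inner D lo hi e y e (y + l) v) (hl : 0 ≤ l) (n : ℕ) :
    Inner D lo (hi + n * l) e y e (y + (n + 1) * l) (rep v (n + 1)) := by
  induction n with
  | zero =>
    simp only [Nat.cast_zero, zero_mul, add_zero, zero_add, one_mul]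
    rw [rep_succ, rep_zero, List.append_nil]
    exact h
  | succ n ih =>
    rw [rep_succ']
    refine (ih.mono le_rfl ?_).trans ?_ (c1 := e) (x1 := y + (n + 1) * l)
    · push_cast
      nlinarith
    · have h1 := (h.shift ((n + 1) * l)).mono (lo' := lo) (hi' := hi + ((n + 1 : ℕ) : ℤ) * l)
        (by nlinarith) (by push_cast; nlinarith)
      convert h1 using 1
      push_cast
      ring

/-- The pumped traverse from cell `1` to cell `k + 1`. -/
theorem traverse {D : Device b C} {k p : ℕ} (hp : p.Prime) (j : ℕ) (V : Set C)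
    (hV : V.encard < k) {c c' : C}
    (hvis : ∀ e y w, 1 ≤ y → y ≤ (k : ℤ) → Inner D 1 k c 1 e y w → e ∈ V)
    {w : List (Fin b)} (h : Inner D 1 k c 1 c' (k + 1) w) :
    ∃ w', Inner D 1 (k + j * (k ! * p !) : ℕ) c 1 c' ((k + j * (k ! * p !) : ℕ) + 1) w' ∧
      Sim b p w' w := by
  classical
  have hne0 : Nonempty C := ⟨c⟩
  have hfin : V.Finite := Set.finite_of_encard_le_coe (k := k) hV.le
  -- the first visits
  have hsplit : ∀ y : ℕ, y ∈ Finset.Icc 1 k → ∃ e u v, Inner D 1 ((y : ℤ) - 1) c 1 e y u ∧
      Inner D 1 k e y c' (k + 1) v ∧ w = u ++ v := by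
    intro y hy
    rw [Finset.mem_Icc] at hy
    exact h.split (y := (y : ℤ)) (by exact_mod_cast hy.1) (by
      have : (y : ℤ) ≤ k := by exact_mod_cast hy.2
      omega)
  choose! e u v h1 h2 h3 using hsplit
  have hcard : hfin.toFinset.card < (Finset.Icc 1 k).card := by
    rw [Nat.card_Icc, Nat.add_sub_cancel]
    have h4 : V.encard = (hfin.toFinset.card : ℕ∞) := by
      rw [Set.Finite.encard_eq_coe_toFinset_card hfin]
    rw [h4] at hV
    exact_mod_cast hV
  have hmaps : ∀ y ∈ Finset.Icc 1 k, e y ∈ hfin.toFinset := by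
    intro y hy
    have hy' := Finset.mem_Icc.1 hy
    rw [Set.Finite.mem_toFinset]
    refine hvis (e y) y (u y) (by exact_mod_cast hy'.1) (by exact_mod_cast hy'.2)
      ((h1 y hy).mono le_rfl ?_)
    have : (y : ℤ) ≤ k := by exact_mod_cast hy'.2
    omega
  obtain ⟨y0, hy0, z0, hz0, hne, heq⟩ :=
    Finset.exists_ne_map_eq_of_card_lt_of_maps_to hcard hmaps
  -- without loss of generality `y < z`
  obtain ⟨y, z, hy, hz, hyz, heq⟩ : ∃ y z, y ∈ Finset.Icc 1 k ∧ z ∈ Finset.Icc 1 k ∧ y < z ∧
      e y = e z := by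
    rcases lt_or_gt_of_ne hne with hlt | hgt
    · exact ⟨y0, z0, hy0, hz0, hlt, heq⟩
    · exact ⟨z0, y0, hz0, hy0, hgt, heq.symm⟩
  have hy' := Finset.mem_Icc.1 hy
  have hz' := Finset.mem_Icc.1 hz
  have hzk : (z : ℤ) ≤ k := by exact_mod_cast hz'.2
  have hyzZ : (y : ℤ) < z := by exact_mod_cast hyz
  obtain ⟨f, s, t, h4, h5, h6⟩ := (h2 y hy).split (y := (z : ℤ)) hyzZ.le (by omega)
  -- `f = e z`
  have h7 : Inner D 1 ((z : ℤ) - 1) c 1 f z (u y ++ s) :=
    ((h1 y hy).mono le_rfl (by omega)).trans h4
  obtain ⟨h8, -, -⟩ := h7.unique (by omega) (h1 z hz) (by omega)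
  rw [h8, ← heq] at h4 h5
  obtain ⟨l, hl⟩ : ∃ l : ℕ, z = y + l := ⟨z - y, by omega⟩
  have hl0 : 0 < l := by omega
  have hlk : l ≤ k := by omega
  obtain ⟨q, hq⟩ : ∃ q, k ! = l * q := (Nat.dvd_factorial hl0 hlk)
  -- the number of additional loops
  obtain ⟨n, hn⟩ : ∃ n : ℕ, n = j * q * p ! := ⟨_, rfl⟩
  have hnl : j * (k ! * p !) = n * l := by
    rw [hn, hq]
    ring
  have hnlZ : (j : ℤ) * ((k ! : ℤ) * (p ! : ℤ)) = (n : ℤ) * (l : ℤ) := by exact_mod_cast hnl
  have hzl : (z : ℤ) = y + l := by exact_mod_cast hl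
  rw [hzl] at h4 h5
  have h9 := Inner.loop h4 (by omega) n
  have h10 := h5.shift ((n : ℤ) * l)
  have hn0 : (0 : ℤ) ≤ (n : ℤ) * l := by positivity
  refine ⟨u y ++ (rep s (n + 1) ++ t), ?_, ?_⟩
  · rw [hnl]
    push_cast
    refine ((h1 y hy).mono le_rfl (by omega)).trans (?_ : Inner D 1 _ (e y) y c' _ _)
    refine (h9.mono le_rfl ?_).trans ?_
    · omega
    · have h11 := h10.mono (lo' := 1) (hi' := (k : ℤ) + n * l) (by omega) le_rfl
      convert h11 using 1 <;> ring
  · rw [h3 y hy, h6]
    refine (Sim.refl _).append (Sim.append ?_ (Sim.refl _))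
    rw [add_comm n 1, hn]
    exact sim_pump hp s (j * q)

end Pool.Agent.LibPF14
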