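import Mathlib
import Pool.Agent.LibPF14.Device

/-!
# One-tape machines: crossing sequences

A deterministic one-tape machine started on `1^k`, the output being the word of the digits on the
tape when it halts.  `Run` records the crossing sequences at all boundaries of cells; `zip` glues
the left part of one computation to the right part of another one, when they have the same
crossing sequence.
-/

set_option autoImplicit false

namespace Pool.Agent.LibPF14

open Nat Function

/-- A deterministic one-tape machine; `step q s = some (q', s', m)` means that in the state `q` on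
the symbol `s` it writes `s'`, passes to the state `q'` and moves its head by `m`;
`step q s = none` means that it halts. `dig s` is the digit which is the symbol `s`, if `s` is one
of the digits. -/
structure OneTM (b : ℕ) (Q Γ : Type*) where
  start : Q
  blank : Γ
  one : Γ
  dig : Γ → Option (Fin b)
  dig_blank : dig blank = none
  step : Q → Γ → Option (Q × Γ × Move)

variable {b : ℕ} {Q Γ : Type*}

/-- In the state `q`, with the head on the cell `x` of the tape `t`, the machine halts after
exactly `n` steps with the tape `f`. -/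
inductive Halts (M : OneTM b Q Γ) : Q → ℤ → (ℤ → Γ) → ℕ → (ℤ → Γ) → Prop
  | halt {q : Q} {x : ℤ} {t : ℤ → Γ} : M.step q (t x) = none → Halts M q x t 0 t
  | step {q : Q} {x : ℤ} {t : ℤ → Γ} {n : ℕ} {f : ℤ → Γ} {q' : Q} {s : Γ} {m : Move} :
      M.step q (t x) = some (q', s, m) → Halts M q' (x + m.val) (update t x s) n f →
      Halts M q x t (n + 1) f

/-- The input `1^k` on the cells `1, …, k`. -/
def inputTape (M : OneTM b Q Γ) (k : ℕ) : ℤ → Γ := fun z => if 1 ≤ z ∧ z ≤ k then M.one else M.blank

/-- The word of the digits on the cells `lo + 1, …, lo + n`, from left to right. -/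
def win (M : OneTM b Q Γ) (f : ℤ → Γ) (lo : ℤ) : ℕ → List (Fin b)
  | 0 => []
  | n + 1 => win M f lo n ++ (M.dig (f (lo + n + 1))).toList

/-- On input `1^k` (head on the first `1`) the machine halts after exactly `n` steps, and `w` is
the word of the digits on its tape, from left to right. -/
def HaltsWith (M : OneTM b Q Γ) (k n : ℕ) (w : List (Fin b)) : Prop :=
  ∃ f, Halts M M.start 1 (inputTape M k) n f ∧
    ∃ (lo : ℤ) (len : ℕ), (∀ z, z ≤ lo ∨ lo + len < z → f z = M.blank) ∧ w = win M f lo len

/-! ### Windows -/

theorem win_add (M : OneTM b Q Γ) (f : ℤ → Γ) (lo : ℤ) (m n : ℕ) :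
    win M f lo (m + n) = win M f lo m ++ win M f (lo + m) n := by
  induction n with
  | zero => simp [win]
  | succ n ih =>
    rw [← add_assoc, win, ih, win, List.append_assoc]
    congr 5
    push_cast
    ring

theorem win_nil (M : OneTM b Q Γ) (f : ℤ → Γ) (lo : ℤ) (n : ℕ)
    (h : ∀ z, lo < z → z ≤ lo + n → f z = M.blank) : win M f lo n = [] := by
  induction n with
  | zero => rfl
  | succ n ih =>
    rw [win, ih (fun z h1 h2 => h z h1 (by push_cast; omega)), h _ (by omega) (by push_cast; omega),
      M.dig_blank]
    rfl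

theorem win_congr (M : OneTM b Q Γ) {f g : ℤ → Γ} {lo lo' : ℤ} (n : ℕ)
    (h : ∀ r : ℕ, r < n → f (lo + r + 1) = g (lo' + r + 1)) : win M f lo n = win M g lo' n := by
  induction n with
  | zero => rfl
  | succ n ih =>
    rw [win, win, ih (fun r hr => h r (by omega)), h n (by omega)]

theorem win_big (M : OneTM b Q Γ) (f : ℤ → Γ) {lo lo' : ℤ} {len len' : ℕ}
    (h : ∀ z, z ≤ lo ∨ lo + len < z → f z = M.blank) (h1 : lo' ≤ lo)
    (h2 : lo + len ≤ lo' + len') : win M f lo' len' = win M f lo len := by
  obtain ⟨a, ha⟩ : ∃ a : ℕ, lo = lo' + a := ⟨(lo - lo').toNat, by omega⟩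
  obtain ⟨c, hc⟩ : ∃ c : ℕ, len' = a + len + c := ⟨len' - (a + len), by omega⟩
  subst ha
  subst hc
  rw [win_add, win_add, win_nil M f lo' a (fun z h3 h4 => h z (Or.inl h4)), List.nil_append,
    win_nil M f (lo' + (a + len : ℕ)) c (fun z h3 h4 => h z (Or.inr (by push_cast at h3; omega))),
    List.append_nil]

theorem win_indep (M : OneTM b Q Γ) (f : ℤ → Γ) {lo lo' : ℤ} {len len' : ℕ}
    (h : ∀ z, z ≤ lo ∨ lo + len < z → f z = M.blank)
    (h' : ∀ z, z ≤ lo' ∨ lo' + len' < z → f z = M.blank) :
    win M f lo len = win M f lo' len' := by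
  have e1 := win_big M f (lo' := min lo lo')
    (len' := (max (lo + len) (lo' + len') - min lo lo').toNat) h (min_le_left _ _)
    (by have := le_max_left (lo + len) (lo' + len'); omega)
  have e2 := win_big M f (lo' := min lo lo')
    (len' := (max (lo + len) (lo' + len') - min lo lo').toNat) h' (min_le_right _ _)
    (by have := le_max_right (lo + len) (lo' + len'); omega)
  rw [← e1, e2]

theorem Halts.unique {M : OneTM b Q Γ} {q : Q} {x : ℤ} {t : ℤ → Γ} {n : ℕ} {f : ℤ → Γ}
    (h : Halts M q x t n f) : ∀ {n' : ℕ} {f' : ℤ → Γ}, Halts M q x t n' f' → n = n' ∧ f = f' := by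
  induction h with
  | halt h1 =>
    intro n' f' h'
    cases h' with
    | halt _ => exact ⟨rfl, rfl⟩
    | step h2 _ => rw [h1] at h2; cases h2
  | step h1 _ ih =>
    intro n' f' h'
    cases h' with
    | halt h2 => rw [h1] at h2; cases h2
    | step h2 h3 =>
      rw [h1] at h2
      cases h2
      obtain ⟨e1, e2⟩ := ih h3
      exact ⟨by rw [e1], e2⟩

/-! ### Crossing sequences -/

/-- The crossing sequences after a step from the cell `x` by `m` to the state `q` has been put
in front; the boundary `i` separates the cells `i` and `i + 1`. -/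
def csUpd (m : Move) (x : ℤ) (q : Q) (cs : ℤ → List Q) : ℤ → List Q :=
  match m with
  | .left => update cs (x - 1) (q :: cs (x - 1))
  | .stay => cs
  | .right => update cs x (q :: cs x)

/-- Halting computations with their crossing sequences. -/
inductive Run (M : OneTM b Q Γ) : Q → ℤ → (ℤ → Γ) → ℕ → (ℤ → Γ) → (ℤ → List Q) → Prop
  | halt {q : Q} {x : ℤ} {t : ℤ → Γ} : M.step q (t x) = none → Run M q x t 0 t (fun _ => [])
  | step {q : Q} {x : ℤ} {t : ℤ → Γ} {n : ℕ} {f : ℤ → Γ} {cs : ℤ → List Q} {q' : Q} {s : Γ}
      {m : Move} : M.step q (t x) = some (q', s, m) →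
      Run M q' (x + m.val) (update t x s) n f cs → Run M q x t (n + 1) f (csUpd m x q' cs)

theorem Halts.run {M : OneTM b Q Γ} {q : Q} {x : ℤ} {t : ℤ → Γ} {n : ℕ} {f : ℤ → Γ}
    (h : Halts M q x t n f) : ∃ cs, Run M q x t n f cs := by
  induction h with
  | halt h1 => exact ⟨_, Run.halt h1⟩
  | step h1 _ ih =>
    obtain ⟨cs, h2⟩ := ih
    exact ⟨_, Run.step h1 h2⟩

theorem Run.halts {M : OneTM b Q Γ} {q : Q} {x : ℤ} {t : ℤ → Γ} {n : ℕ} {f : ℤ → Γ}
    {cs : ℤ → List Q} (h : Run M q x t n f cs) : Halts M q x t n f := by
  induction h with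
  | halt h1 => exact Halts.halt h1
  | step h1 _ ih => exact Halts.step h1 ih

theorem Run.sum_le {M : OneTM b Q Γ} {q : Q} {x : ℤ} {t : ℤ → Γ} {n : ℕ} {f : ℤ → Γ}
    {cs : ℤ → List Q} (h : Run M q x t n f cs) (s : Finset ℤ) :
    ∑ i ∈ s, (cs i).length ≤ n := by
  induction h with
  | halt h1 => simp
  | @step q x t n f cs q' s' m h1 _ ih =>
    have key : ∀ y : ℤ, ∑ i ∈ s, (update cs y (q' :: cs y) i).length ≤ n + 1 := by
      intro y
      have h2 : ∀ i ∈ s, (update cs y (q' :: cs y) i).length
          ≤ (cs i).length + (if i = y then 1 else 0) := by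
        intro i _
        by_cases hi : i = y
        · subst hi
          simp
        · simp [update_of_ne hi]
      have h3 := Finset.sum_le_sum h2
      rw [Finset.sum_add_distrib, Finset.sum_ite_eq'] at h3
      split_ifs at h3 <;> omega
    cases m with
    | left => exact key _
    | stay =>
      simp only [csUpd]
      omega
    | right => exact key _

/-! ### Gluing -/

/-- The left (if `σ`) or right (if not `σ`) part of `g` up to the boundary `iP`, glued to the
other part of `g'` from the boundary `iR` on; `i` is the boundary in the new coordinates. -/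
def zipT {α : Type*} (σ : Bool) (i : ℤ) (g : ℤ → α) (iP : ℤ) (g' : ℤ → α) (iR : ℤ) : ℤ → α :=
  fun z => if decide (z ≤ i) = σ then g (z - i + iP) else g' (z - i + iR)

theorem zipT_swap {α : Type*} (σ : Bool) (i : ℤ) (g : ℤ → α) (iP : ℤ) (g' : ℤ → α) (iR : ℤ) :
    zipT (!σ) i g' iR g iP = zipT σ i g iP g' iR := by
  funext z
  unfold zipT
  cases σ <;> cases decide (z ≤ i) <;> simp

theorem zipT_upd {α : Type*} {σ : Bool} (i : ℤ) (g : ℤ → α) {iP : ℤ} (g' : ℤ → α) (iR : ℤ)
    {x : ℤ} (a : α) (hx : decide (x ≤ iP) = σ) :
    zipT σ i (update g x a) iP g' iR = update (zipT σ i g iP g' iR) (x - iP + i) a := by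
  funext z
  by_cases hz : z = x - iP + i
  · subst hz
    rw [update_self]
    unfold zipT
    have h1 : (x - iP + i ≤ i) ↔ (x ≤ iP) := by omega
    rw [if_pos (by rw [← hx]; simp only [h1]), show x - iP + i - i + iP = x by ring, update_self]
  · rw [update_of_ne hz]
    unfold zipT
    by_cases h2 : decide (z ≤ i) = σ
    · rw [if_pos h2, if_pos h2, update_of_ne (by omega)]
    · rw [if_neg h2, if_neg h2]

theorem zipT_upd' {α : Type*} {σ : Bool} (i : ℤ) (g : ℤ → α) (iP : ℤ) (g' : ℤ → α) {iR : ℤ}
    {x : ℤ} (a : α) (hx : decide (x ≤ iR) = σ) :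
    zipT σ i g iP (update g' x a) iR = zipT σ i g iP g' iR := by
  funext z
  unfold zipT
  by_cases h2 : decide (z ≤ i) = σ
  · rw [if_pos h2, if_pos h2]
  · rw [if_neg h2, if_neg h2]
    refine update_of_ne ?_ _ _
    rintro rfl
    apply h2
    rw [← hx]
    have h1 : (z ≤ i) ↔ (z - i + iR ≤ iR) := by omega
    simp only [h1]

theorem zipT_upd_both {α : Type*} (σ : Bool) (i : ℤ) (g : ℤ → α) (iP : ℤ) (g' : ℤ → α) (iR : ℤ)
    (a : α) :
    zipT σ i (update g iP a) iP (update g' iR a) iR = update (zipT σ i g iP g' iR) i a := by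
  funext z
  by_cases hz : z = i
  · subst hz
    rw [update_self]
    unfold zipT
    rw [sub_self, zero_add, zero_add, update_self, update_self, ite_self]
  · rw [update_of_ne hz]
    unfold zipT
    rw [update_of_ne (by omega), update_of_ne (by omega)]

theorem zipT_at {α : Type*} (σ : Bool) (i : ℤ) (g : ℤ → α) (iP : ℤ) (g' : ℤ → α) (iR : ℤ)
    {x : ℤ} (hx : decide (x ≤ iP) = σ) : zipT σ i g iP g' iR (x - iP + i) = g x := by
  unfold zipT
  have h1 : (x - iP + i ≤ i) ↔ (x ≤ iP) := by omega
  rw [if_pos (by rw [← hx]; simp only [h1]), show x - iP + i - i + iP = x by ring]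

theorem dec_iff {p q : Prop} [Decidable p] [Decidable q] {σ : Bool} (h : decide p = σ)
    (h' : decide q = σ) : p ↔ q := by
  rw [← h'] at h
  exact decide_eq_decide.1 h

/-- A step of the first computation which does not cross the boundary. -/
theorem zipT_cs {σ : Bool} (i : ℤ) (cs : ℤ → List Q) {iP : ℤ} (cs' : ℤ → List Q) (iR : ℤ)
    {x : ℤ} {m : Move} (q : Q) (hx : decide (x ≤ iP) = σ) (hx' : decide (x + m.val ≤ iP) = σ) :
    zipT σ i (csUpd m x q cs) iP cs' iR = csUpd m (x - iP + i) q (zipT σ i cs iP cs' iR) ∧
      csUpd m x q cs iP = cs iP := by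
  cases m with
  | left =>
    have h1 : decide (x - 1 ≤ iP) = σ := hx'
    simp only [csUpd]
    rw [zipT_upd i cs cs' iR _ h1, show x - iP + i - 1 = x - 1 - iP + i by ring,
      zipT_at σ i cs iP cs' iR h1]
    refine ⟨rfl, update_of_ne ?_ _ _⟩
    intro he
    have h2 := dec_iff hx hx'
    simp only [Move.val] at h2
    omega
  | stay => exact ⟨rfl, rfl⟩
  | right =>
    simp only [csUpd]
    rw [zipT_upd i cs cs' iR _ hx, zipT_at σ i cs iP cs' iR hx]
    refine ⟨rfl, update_of_ne ?_ _ _⟩
    intro he
    have h2 := dec_iff hx hx'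
    simp only [Move.val] at h2
    omega

/-- A step of the second computation which does not cross the boundary. -/
theorem zipT_cs' {σ : Bool} (i : ℤ) (cs : ℤ → List Q) (iP : ℤ) (cs' : ℤ → List Q) {iR : ℤ}
    {x : ℤ} {m : Move} (q : Q) (hx : decide (x ≤ iR) = σ) (hx' : decide (x + m.val ≤ iR) = σ) :
    zipT σ i cs iP (csUpd m x q cs') iR = zipT σ i cs iP cs' iR ∧
      csUpd m x q cs' iR = cs' iR := by
  cases m with
  | left =>
    have h1 : decide (x - 1 ≤ iR) = σ := hx'
    simp only [csUpd]
    rw [zipT_upd' i cs iP cs' _ h1]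
    refine ⟨rfl, update_of_ne ?_ _ _⟩
    intro he
    have h2 := dec_iff hx hx'
    simp only [Move.val] at h2
    omega
  | stay => exact ⟨rfl, rfl⟩
  | right =>
    simp only [csUpd]
    rw [zipT_upd' i cs iP cs' _ hx]
    refine ⟨rfl, update_of_ne ?_ _ _⟩
    intro he
    have h2 := dec_iff hx hx'
    simp only [Move.val] at h2
    omega

/-- A step across the boundary. -/
theorem csUpd_cross {σ : Bool} (cs : ℤ → List Q) {i x : ℤ} {m : Move} (q : Q)
    (hx : decide (x ≤ i) = σ) (hx' : ¬ decide (x + m.val ≤ i) = σ) :
    csUpd m x q cs = update cs i (q :: cs i) ∧ m.val = (if σ then 1 else -1) ∧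
      x = (if σ then i else i + 1) := by
  cases σ with
  | true =>
    have h1 : x ≤ i := by simpa using hx
    have h2 : ¬ x + m.val ≤ i := by simpa using hx'
    cases m with
    | left => simp only [Move.val] at h2; omega
    | stay => simp only [Move.val] at h2; omega
    | right =>
      simp only [Move.val] at h2
      have h3 : x = i := by omega
      subst h3
      exact ⟨rfl, rfl, rfl⟩
  | false =>
    have h1 : ¬ x ≤ i := by simpa using hx
    have h2 : x + m.val ≤ i := by simpa using hx'
    cases m with
    | left =>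
      simp only [Move.val] at h2
      have h3 : x = i + 1 := by omega
      subst h3
      refine ⟨?_, rfl, rfl⟩
      simp only [csUpd, add_sub_cancel_right]
    | stay => simp only [Move.val] at h2; omega
    | right => simp only [Move.val] at h2; omega

/-- A computation which does not cross the boundary any more does not change the other part. -/
theorem Run.other {M : OneTM b Q Γ} {q : Q} {x : ℤ} {t : ℤ → Γ} {n : ℕ} {f : ℤ → Γ}
    {cs : ℤ → List Q} (h : Run M q x t n f cs) (σ : Bool) (i : ℤ) (g : ℤ → Γ) (iP : ℤ) {iR : ℤ}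
    (gc : ℤ → List Q) : decide (x ≤ iR) = σ → cs iR = [] →
    zipT σ i g iP t iR = zipT σ i g iP f iR ∧
      zipT σ i gc iP (fun _ => []) iR = zipT σ i gc iP cs iR := by
  induction h with
  | halt h1 => exact fun _ _ => ⟨rfl, rfl⟩
  | @step q x t n f cs q' s m h1 _ ih =>
    intro hx hcs
    by_cases hx' : decide (x + m.val ≤ iR) = σ
    · obtain ⟨e1, e2⟩ := zipT_cs' i gc iP cs q' hx hx'
      rw [e2] at hcs
      obtain ⟨e3, e4⟩ := ih hx' hcs
      rw [e1, ← e3, e4]
      exact ⟨(zipT_upd' i g iP t s hx).symm, rfl⟩
    · obtain ⟨e1, _, _⟩ := csUpd_cross cs q' hx hx'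
      rw [e1, update_self] at hcs
      exact absurd hcs (by simp)

/-- The gluing lemma. -/
theorem zip (M : OneTM b Q Γ) (i : ℤ) : ∀ (N nP nR : ℕ), nP + nR ≤ N →
    ∀ (σ : Bool) (iP iR : ℤ) (qP qR : Q) (xP xR : ℤ) (tP tR fP fR : ℤ → Γ)
      (csP csR : ℤ → List Q), Run M qP xP tP nP fP csP → Run M qR xR tR nR fR csR →
      decide (xP ≤ iP) = σ → decide (xR ≤ iR) = σ → csP iP = csR iR →
      ∃ n, Run M qP (xP - iP + i) (zipT σ i tP iP tR iR) n (zipT σ i fP iP fR iR)
        (zipT σ i csP iP csR iR) := by
  intro N
  induction N with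
  | zero =>
    intro nP nR hN σ iP iR qP qR xP xR tP tR fP fR csP csR hP hR hσP hσR hcs
    obtain ⟨rfl, rfl⟩ : nP = 0 ∧ nR = 0 := by omega
    cases hP with
    | halt h1 =>
      cases hR with
      | halt h2 =>
        refine ⟨0, ?_⟩
        have e1 : zipT σ i (fun _ => ([] : List Q)) iP (fun _ => []) iR = fun _ => [] := by
          funext z
          simp [zipT]
        rw [e1]
        refine Run.halt ?_
        rw [zipT_at σ i tP iP tR iR hσP]
        exact h1
  | succ N ih =>
    intro nP nR hN σ iP iR qP qR xP xR tP tR fP fR csP csR hP hR hσP hσR hcs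
    cases hP with
    | halt h1 =>
      -- the first computation halts
      refine ⟨0, ?_⟩
      obtain ⟨e1, e2⟩ := hR.other σ i tP iP (fun _ => []) hσR hcs.symm
      rw [← e1, ← e2]
      have e3 : zipT σ i (fun _ => ([] : List Q)) iP (fun _ => []) iR = fun _ => [] := by
        funext z
        simp [zipT]
      rw [e3]
      refine Run.halt ?_
      rw [zipT_at σ i tP iP tR iR hσP]
      exact h1
    | @step _ _ _ nP _ csP q' s m h1 hP' =>
      by_cases hx' : decide (xP + m.val ≤ iP) = σ
      · -- it makes a step on its side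
        obtain ⟨e1, e2⟩ := zipT_cs i csP csR iR q' hσP hx'
        rw [e2] at hcs
        obtain ⟨n, h2⟩ := ih nP nR (by omega) σ iP iR q' qR _ xR _ tR fP fR csP csR hP' hR hx'
          hσR hcs
        refine ⟨n + 1, ?_⟩
        rw [e1]
        refine Run.step (s := s) (by rw [zipT_at σ i tP iP tR iR hσP]; exact h1) ?_
        rw [← zipT_upd i tP tR iR s hσP, show xP - iP + i + m.val = xP + m.val - iP + i by ring]
        exact h2
      · -- it crosses the boundary
        obtain ⟨e1, e2, e3⟩ := csUpd_cross csP q' hσP hx'
        cases hR with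
        | halt h3 =>
          rw [e1, update_self] at hcs
          exact absurd hcs (by simp)
        | @step _ _ _ nR _ csR q'' s' m' h3 hR' =>
          by_cases hy' : decide (xR + m'.val ≤ iR) = σ
          · -- the second computation makes a step in its irrelevant part
            obtain ⟨e4, e5⟩ := zipT_cs' i (csUpd m xP q' csP) iP csR q'' hσR hy'
            rw [e5] at hcs
            obtain ⟨n, h4⟩ := ih (nP + 1) nR (by omega) σ iP iR qP q'' xP _ tP _ fP fR _ csR
              (Run.step h1 hP') hR' hσP hy' hcs
            rw [zipT_upd' i tP iP tR s' hσR] at h4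
            refine ⟨n, ?_⟩
            rw [e4]
            exact h4
          · -- both cross
            obtain ⟨e4, e5, e6⟩ := csUpd_cross csR q'' hσR hy'
            rw [e1, e4, update_self, update_self] at hcs
            obtain ⟨hq, hcs'⟩ := List.cons.inj hcs
            subst hq
            have hx2 : decide (xP + m.val ≤ iP) = !σ := by
              cases hd : decide (xP + m.val ≤ iP) <;> cases σ <;> simp_all
            have hy2 : decide (xR + m'.val ≤ iR) = !σ := by
              cases hd : decide (xR + m'.val ≤ iR) <;> cases σ <;> simp_all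
            obtain ⟨n, h4⟩ := ih nR nP (by omega) (!σ) iR iP q' q' _ _ _ _ fR fP csR csP hR' hP'
              hy2 hx2 hcs'.symm
            rw [zipT_swap, zipT_swap, zipT_swap, zipT_upd i tP _ iR s hσP,
              zipT_upd' i tP iP tR s' hσR] at h4
            refine ⟨n + 1, ?_⟩
            rw [e1, e4]
            have hv : q' :: csR iR = q' :: csP iP := by rw [hcs']
            rw [hv, zipT_upd_both]
            have e8 : update (zipT σ i csP iP csR iR) i (q' :: csP iP)
                = csUpd m (xP - iP + i) q' (zipT σ i csP iP csR iR) := by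
              have hd1 : decide (xP - iP + i ≤ i) = σ := by
                rw [← hσP]
                have : (xP - iP + i ≤ i) ↔ (xP ≤ iP) := by omega
                simp only [this]
              have hd2 : ¬ decide (xP - iP + i + m.val ≤ i) = σ := by
                intro hc
                apply hx'
                rw [← hc]
                have : (xP + m.val ≤ iP) ↔ (xP - iP + i + m.val ≤ i) := by omega
                simp only [this]
              rw [(csUpd_cross (zipT σ i csP iP csR iR) q' hd1 hd2).1]
              have : zipT σ i csP iP csR iR i = csP iP := by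
                unfold zipT
                rw [sub_self, zero_add, zero_add, ← hcs', ite_self]
              rw [this]
            rw [e8]
            refine Run.step (s := s) (by rw [zipT_at σ i tP iP tR iR hσP]; exact h1) ?_
            have e9 : xP - iP + i + m.val = xR + m'.val - iR + i := by
              rw [e3, e6, e2, e5]
              cases σ
              · simp only [Bool.false_eq_true, if_false]
                ring
              · simp only [if_true]
                ring
            rw [e9]
            exact h4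

end Pool.Agent.LibPF14
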