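import Mathlib
import Pool.Agent.LibPF14.OneTape

/-!
# One-tape machines: the lower bound for the time

On every input the crossing sequences at the boundaries of the input cells are pairwise
different; so a one-tape machine which finds primes needs time of order at least `k log k`.
-/

set_option autoImplicit false

namespace Pool.Agent.LibPF14

open Nat Function

variable {b : ℕ} {Q Γ : Type*}

/-- On every input `k ≥ 1` the machine halts and prints, in base `b`, a prime `≥ b ^ (k - 1)`. -/
def SolvesOne (M : OneTM b Q Γ) (msb : Bool) : Prop :=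
  ∀ k : ℕ, 1 ≤ k → ∃ n w, HaltsWith M k n w ∧ (read msb b w).Prime ∧ b ^ (k - 1) ≤ read msb b w

theorem HaltsWith.unique {M : OneTM b Q Γ} {k n n' : ℕ} {w w' : List (Fin b)}
    (h : HaltsWith M k n w) (h' : HaltsWith M k n' w') : n = n' ∧ w = w' := by
  obtain ⟨f, h1, lo, len, h2, rfl⟩ := h
  obtain ⟨f', h1', lo', len', h2', rfl⟩ := h'
  obtain ⟨rfl, rfl⟩ := h1.unique h1'
  exact ⟨rfl, win_indep M f h2 h2'⟩

/-- Pumping a block of the input between two boundaries with the same crossing sequence. -/
theorem pump {M : OneTM b Q Γ} {k n i d : ℕ} {f : ℤ → Γ} {cs : ℤ → List Q} (hi : 1 ≤ i)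
    (hd : i + d ≤ k) (h : Run M M.start 1 (inputTape M k) n f cs)
    (hcs : cs i = cs (i + d : ℕ)) (a : ℕ) (m : ℕ) :
    ∃ nm fm csm, Run M M.start 1 (inputTape M (k + m * d)) nm fm csm ∧
      csm (i + d + m * d : ℕ) = cs i ∧ (∀ z : ℤ, z ≤ i → fm z = f z) ∧
      win M fm (-(a : ℤ)) (a + (i + d + m * d)) =
        win M f (-(a : ℤ)) (a + i) ++ rep (win M f i d) (m + 1) ∧
      ∀ z : ℤ, ((i + d + m * d : ℕ) : ℤ) < z → fm z = f (z - (m * d : ℕ)) := by
  induction m with
  | zero =>
    refine ⟨n, f, cs, by simpa using h, by simpa using hcs.symm, fun z _ => rfl, ?_, ?_⟩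
    · rw [zero_mul, add_zero, ← add_assoc, win_add, zero_add]
      congr 1
      rw [show (-(a : ℤ) + ((a + i : ℕ) : ℤ)) = (i : ℤ) by push_cast; ring]
      simp [rep]
    · intro z _
      simp
  | succ m ih =>
    obtain ⟨nm, fm, csm, h1, h2, h3, h4, h5⟩ := ih
    set J : ℕ := i + d + m * d with hJ
    obtain ⟨n', h6⟩ := zip M (J : ℤ) (nm + n) nm n le_rfl true (J : ℤ) (i : ℤ) M.start M.start
      1 1 (inputTape M (k + m * d)) (inputTape M k) fm f csm cs h1 h
      (by simp only [decide_eq_true_eq]; omega) (by simp only [decide_eq_true_eq]; omega)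
      (by rw [h2])
    have hJ' : i + d + (m + 1) * d = J + d := by rw [hJ]; ring
    have e1 : zipT true (J : ℤ) (inputTape M (k + m * d)) J (inputTape M k) i
        = inputTape M (k + (m + 1) * d) := by
      funext z
      unfold zipT inputTape
      have e2 : ((k + (m + 1) * d : ℕ) : ℤ) = (k : ℤ) + (m * d : ℕ) + d := by push_cast; ring
      have e3 : ((k + m * d : ℕ) : ℤ) = (k : ℤ) + (m * d : ℕ) := by push_cast; ring
      have e4 : (J : ℤ) = (i : ℤ) + d + (m * d : ℕ) := by rw [hJ]; push_cast; ring
      rw [e2, e3]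
      by_cases hz : z ≤ (J : ℤ)
      · rw [if_pos (by simpa using hz), sub_add_cancel]
        by_cases h1z : 1 ≤ z
        · rw [if_pos ⟨h1z, by omega⟩, if_pos ⟨h1z, by omega⟩]
        · rw [if_neg (by omega), if_neg (by omega)]
      · rw [if_neg (by simpa using hz)]
        by_cases h1z : z ≤ (k : ℤ) + (m * d : ℕ) + d
        · rw [if_pos ⟨by omega, by omega⟩, if_pos ⟨by omega, h1z⟩]
        · rw [if_neg (by omega), if_neg (by omega)]
    rw [e1, sub_add_cancel] at h6
    have hL : ∀ z : ℤ, z ≤ J → zipT true (J : ℤ) fm J f i z = fm z := by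
      intro z hz
      unfold zipT
      rw [if_pos (by simpa using hz), sub_add_cancel]
    have hR : ∀ z : ℤ, (J : ℤ) < z → zipT true (J : ℤ) fm J f i z = f (z - J + i) := by
      intro z hz
      unfold zipT
      rw [if_neg (by simpa using hz)]
    refine ⟨n', _, _, h6, ?_, ?_, ?_, ?_⟩
    · rw [hJ']
      unfold zipT
      by_cases hd0 : d = 0
      · subst hd0
        rw [if_pos (by simp), add_zero, sub_add_cancel, h2]
      · rw [if_neg (by simp only [decide_eq_true_eq]; push_cast; omega),
          show ((J + d : ℕ) : ℤ) - J + i = ((i + d : ℕ) : ℤ) by push_cast; ring, hcs]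
    · intro z hz
      rw [hL z (by omega), h3 z hz]
    · rw [hJ', ← add_assoc, win_add, win_congr M (g := fm) (lo' := -(a : ℤ)) (a + J)
        (fun r hr => hL _ (by omega)), h4, List.append_assoc, rep_succ' _ (m + 1)]
      congr 2
      refine win_congr M d fun r hr => ?_
      rw [hR _ (by push_cast; omega)]
      congr 1
      push_cast
      ring
    · intro z hz
      rw [hJ'] at hz
      rw [hR z (by omega)]
      congr 1
      rw [hJ]
      push_cast
      ring

/-- The crossing sequences at the boundaries `1, …, k` of the input cells are different. -/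
theorem cs_injective (hb : 2 ≤ b) {M : OneTM b Q Γ} {msb : Bool} (hM : SolvesOne M msb)
    {k n : ℕ} {f : ℤ → Γ} {cs : ℤ → List Q} (h : Run M M.start 1 (inputTape M k) n f cs)
    {i j : ℕ} (hi : 1 ≤ i) (hij : i < j) (hj : j ≤ k) : cs i ≠ cs j := by
  intro hcs
  obtain ⟨d, rfl⟩ := Nat.exists_eq_add_of_lt hij
  rw [add_assoc] at hcs hj
  obtain ⟨n0, w, hw, hp, -⟩ := hM k (by omega)
  obtain ⟨p, hpw⟩ : ∃ p, p = read msb b w := ⟨_, rfl⟩
  rw [← hpw] at hp
  obtain ⟨f', h1, lo, len, h2, rfl⟩ := hw
  obtain ⟨rfl, rfl⟩ := h1.unique h.halts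
  set a : ℕ := lo.natAbs with ha
  set c : ℕ := (lo + len).natAbs with hc
  set D : ℕ := d + 1 with hD
  set m : ℕ := p * p ! with hm
  obtain ⟨nm, fm, csm, h3, -, h5, h6, h7⟩ := pump hi hj h hcs a m
  -- the output on the input `k`
  have hout : win M f' lo len = win M f' (-(a : ℤ)) (a + i) ++ win M f' i D ++
      win M f' ((i + D : ℕ) : ℤ) c := by
    have e1 : win M f' lo len = win M f' (-(a : ℤ)) (a + i + D + c) := by
      refine win_indep M f' h2 fun z hz => h2 z ?_
      rcases hz with hz | hz
      · left; omega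
      · right; push_cast at hz; omega
    rw [e1, win_add, win_add]
    congr 2
    · congr 1
      push_cast
      ring
    · push_cast
      ring
  -- the output on the input `k + m D`
  have hout' : HaltsWith M (k + m * D) nm (win M f' (-(a : ℤ)) (a + i) ++
      rep (win M f' i D) (m + 1) ++ win M f' ((i + D : ℕ) : ℤ) c) := by
    refine ⟨fm, h3.halts, -(a : ℤ), a + (i + D + m * D) + c, fun z hz => ?_, ?_⟩
    · rcases hz with hz | hz
      · rw [h5 z (by omega)]
        exact h2 z (Or.inl (by omega))
      · have hz' : ((i + D + m * D : ℕ) : ℤ) + c < z := by push_cast at hz ⊢; omega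
        rw [h7 z (by omega)]
        refine h2 _ (Or.inr ?_)
        push_cast at hz' ⊢
        omega
    · rw [win_add M fm (-(a : ℤ)) (a + (i + D + m * D)) c, h6]
      congr 1
      refine win_congr M c fun r hr => ?_
      rw [h7 _ (by push_cast; omega)]
      congr 1
      push_cast
      ring
  have hsim : Sim b p (win M f' (-(a : ℤ)) (a + i) ++
      rep (win M f' i D) (m + 1) ++ win M f' ((i + D : ℕ) : ℤ) c) (win M f' lo len) := by
    rw [hout, add_comm m 1]
    exact ((Sim.refl _).append (sim_pump hp _ _)).append (Sim.refl _)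
  have hf : 0 < p ! := Nat.factorial_pos p
  have hge : p ≤ m := Nat.le_mul_of_pos_right p hf
  obtain ⟨n', w', h8, h9, h10⟩ := hM (k + m * D) (by omega)
  obtain ⟨-, rfl⟩ := h8.unique hout'
  have h11 := hsim.dvd msb (by rw [hpw])
  have h12 := (Nat.prime_dvd_prime_iff_eq hp h9).1 h11
  rw [← h12] at h10
  have h13 : m ≤ m * D := Nat.le_mul_of_pos_right m (by omega)
  have h14 : 2 ^ p ≤ b ^ (k + m * D - 1) :=
    (Nat.pow_le_pow_left hb p).trans (Nat.pow_le_pow_right (by omega) (by omega))
  exact absurd (h14.trans h10) (not_le.2 Nat.lt_two_pow_self)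

/-- The number of different words of length less than `l`. -/
theorem card_short [Fintype Q] {s : Finset ℤ} {cs : ℤ → List Q}
    (hinj : Set.InjOn cs (s : Set ℤ)) (l : ℕ) :
    (s.filter fun i => (cs i).length < l).card ≤ (Fintype.card Q + 1) ^ l := by
  classical
  have h1 : (s.filter fun i => (cs i).length < l).card ≤
      (Finset.univ : Finset (Fin l → Option Q)).card := by
    refine Finset.card_le_card_of_injOn (fun i t => (cs i)[(t : ℕ)]?) (fun i _ =>
      Finset.mem_coe.2 (Finset.mem_univ _)) ?_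
    intro i hi j hj hij
    have hi' := Finset.mem_filter.1 (Finset.mem_coe.1 hi)
    have hj' := Finset.mem_filter.1 (Finset.mem_coe.1 hj)
    refine hinj (Finset.mem_coe.2 hi'.1) (Finset.mem_coe.2 hj'.1) ?_
    apply List.ext_getElem?
    intro t
    by_cases ht : t < l
    · exact congrFun hij ⟨t, ht⟩
    · rw [List.getElem?_eq_none (by omega), List.getElem?_eq_none (by omega)]
  refine h1.trans (le_of_eq ?_)
  rw [Finset.card_univ, Fintype.card_fun, Fintype.card_option, Fintype.card_fin]

/-- A one-tape machine which finds primes needs more than `c k log k` steps, for large `k`. -/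
theorem one_tape_bound (hb : 2 ≤ b) [Fintype Q] {M : OneTM b Q Γ} {msb : Bool}
    (hM : SolvesOne M msb) {k : ℕ} (hk : 2 * (Fintype.card Q + 1) ≤ k) {n : ℕ}
    {w : List (Fin b)} (h : HaltsWith M k n w) :
    (k : ℝ) * Real.log k ≤ 6 * Real.log (Fintype.card Q + 1) * n := by
  classical
  obtain ⟨f, h1, -⟩ := h
  obtain ⟨cs, h2⟩ := h1.run
  set c : ℕ := Fintype.card Q + 1 with hc
  have hQ : 0 < Fintype.card Q := Fintype.card_pos_iff.2 ⟨M.start⟩
  have hc2 : 2 ≤ c := by omega
  set s : Finset ℤ := Finset.Icc 1 (k : ℤ) with hs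
  have hinj : Set.InjOn cs (s : Set ℤ) := by
    intro x hx y hy hxy
    rw [hs, Finset.coe_Icc] at hx hy
    by_contra hne
    obtain ⟨i, rfl⟩ : ∃ i : ℕ, x = i := ⟨x.toNat, by have := hx.1; omega⟩
    obtain ⟨j, rfl⟩ : ∃ j : ℕ, y = j := ⟨y.toNat, by have := hy.1; omega⟩
    have hxi := hx.1
    have hxk := hx.2
    have hyi := hy.1
    have hyk := hy.2
    rcases lt_or_gt_of_ne hne with hlt | hlt
    · exact cs_injective hb hM h2 (i := i) (j := j) (by omega) (by omega) (by omega) hxy
    · exact cs_injective hb hM h2 (i := j) (j := i) (by omega) (by omega) (by omega) hxy.symm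
  set l : ℕ := Nat.log c (k / 2) with hl
  have hk2 : k / 2 ≠ 0 := by omega
  have h3 : c ^ l ≤ k / 2 := Nat.pow_log_le_self c hk2
  have h4 : k / 2 < c ^ (l + 1) := Nat.lt_pow_succ_log_self (by omega) _
  have hl1 : 1 ≤ l := by
    rw [hl]
    exact Nat.log_pos (by omega) (by omega)
  have h5 := card_short hinj l
  rw [← hc] at h5
  have h6 : (s.filter fun i => (cs i).length < l).card
      + (s.filter fun i => ¬ (cs i).length < l).card = k := by
    rw [Finset.card_filter_add_card_filter_not, hs, Int.card_Icc]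
    omega
  have h7 : (s.filter fun i => ¬ (cs i).length < l).card * l ≤ n := by
    refine le_trans ?_ (h2.sum_le (s.filter fun i => ¬ (cs i).length < l))
    rw [← smul_eq_mul]
    exact Finset.card_nsmul_le_sum _ _ _ fun i hi => not_lt.1 (Finset.mem_filter.1 hi).2
  have h8 : k ≤ 2 * (s.filter fun i => ¬ (cs i).length < l).card := by omega
  have h9 : k * l ≤ 2 * n := by nlinarith
  have h9' : (k : ℝ) * l ≤ 2 * n := by exact_mod_cast h9
  have h10 : (k : ℝ) ≤ 2 * (c : ℝ) ^ (l + 1) := by
    have : k ≤ 2 * c ^ (l + 1) := by omega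
    exact_mod_cast this
  have hk0 : (0 : ℝ) < k := by
    have : 0 < k := by omega
    exact_mod_cast this
  have hc0 : (0 : ℝ) < c := by
    have : 0 < c := by omega
    exact_mod_cast this
  have hlc : Real.log 2 ≤ Real.log c := Real.log_le_log (by norm_num) (by exact_mod_cast hc2)
  have hlc0 : 0 < Real.log c := lt_of_lt_of_le (Real.log_pos (by norm_num)) hlc
  have h11 : Real.log k ≤ 3 * l * Real.log c := by
    have h12 := Real.log_le_log hk0 h10
    rw [Real.log_mul (by norm_num) (by positivity), Real.log_pow] at h12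
    have hl1' : (1 : ℝ) ≤ l := by exact_mod_cast hl1
    push_cast at h12
    nlinarith
  have h13 : (Fintype.card Q : ℝ) + 1 = c := by rw [hc]; push_cast; ring
  rw [h13]
  calc (k : ℝ) * Real.log k ≤ k * (3 * l * Real.log c) := mul_le_mul_of_nonneg_left h11 hk0.le
    _ = 3 * Real.log c * (k * l) := by ring
    _ ≤ 3 * Real.log c * (2 * n) := mul_le_mul_of_nonneg_left h9' (by positivity)
    _ = 6 * Real.log c * n := by ring

end Pool.Agent.LibPF14
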