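import Mathlib
import Pool.Agent.LibPF14.Device

/-!
# The pumping argument for devices

If fewer than `k` internal configurations occur on input `k`, then for each prime `p` and each
`j` the run on input `k + j * (k! * p!)` is the run on input `k` with additional loops, and its
output acts in the same way on `ZMod p`.  Hence a device which prints primes of unbounded size
has at least `k` internal configurations on input `k`.
-/

set_option autoImplicit false

namespace Pool.Agent.LibPF14

open Nat

variable {b : ℕ} {C : Type*}

theorem sym_zero (k : ℕ) : sym k 0 = .left := by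
  unfold sym
  rw [if_pos le_rfl]

theorem sym_end (k : ℕ) : sym k ((k : ℤ) + 1) = .right := by
  unfold sym
  rw [if_neg (by omega), if_neg (by omega)]

theorem simulate {D : Device b C} {k p : ℕ} (hp : p.Prime) (j : ℕ)
    (hV : (visited D k).encard < k) {K : ℕ} (hK : K = k + j * (k ! * p !)) :
    ∀ (n : ℕ) (c : C) (x : ℤ) (w w0 : List (Fin b)), (x = 0 ∨ x = k + 1) → Reach D k c x w0 →
      HRun D k n c x w → ∃ n' w', HRun D K n' c (if x = 0 then 0 else (K : ℤ) + 1) w' ∧
        Sim b p w' w := by
  have hk1 : 1 ≤ k := by
    rcases Nat.eq_zero_or_pos k with rfl | h0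
    · simp at hV
    · exact h0
  have hk1Z : (1 : ℤ) ≤ k := by exact_mod_cast hk1
  obtain ⟨d, hd⟩ : ∃ d : ℕ, d = j * (k ! * p !) := ⟨_, rfl⟩
  have hKd : (K : ℤ) = k + d := by
    rw [hK, ← hd]
    push_cast
    ring
  have hd0 : (0 : ℤ) ≤ d := by positivity
  intro n
  induction n using Nat.strong_induction_on with
  | _ n ih =>
  intro c x w w0 hx hr h
  cases h with
  | halt h1 =>
    refine ⟨0, [], HRun.halt ?_, Sim.refl _⟩
    rcases hx with rfl | rfl
    · rw [if_pos rfl, sym_zero]
      rwa [sym_zero] at h1
    · rw [if_neg (by omega), sym_end]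
      rwa [sym_end] at h1
  | @step n0 _ _ c' m o w1 h1 h2 =>
    have hr1 := Reach.step hr h1
    rcases hx with rfl | rfl
    · -- at the left end
      rw [if_pos rfl]
      rw [sym_zero] at h1
      by_cases hm : m = .right
      · subst hm
        have e1 : ∀ q : ℕ, 1 ≤ q → mv q 0 .right = 1 := by
          intro q hq
          have : (1 : ℤ) ≤ q := by exact_mod_cast hq
          unfold mv
          simp only [Move.val]
          rw [min_eq_right (by omega), max_eq_right (by omega)]
          norm_num
        have hK1 : 1 ≤ K := by omega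
        rw [e1 k hk1] at h2 hr1
        have hstep : ∀ {n' : ℕ} {w' : List (Fin b)}, HRun D K n' c' 1 w' →
            HRun D K (n' + 1) c 0 (o ++ w') := by
          intro n' w' h'
          refine HRun.step (m := .right) (by rw [sym_zero]; exact h1) ?_
          rw [e1 K hK1]
          exact h'
        rcases h2.decompose le_rfl hk1Z with ⟨e, x1, u, v, n1, h3, h4, h5, h6, rfl⟩ |
          ⟨e, x1, h3, h4, h5, h6⟩
        · have hr2 := h5.reach hr1
          obtain ⟨n', v', h7, h8⟩ := ih n1 (by omega) e x1 v _ h3 hr2 h6
          rcases h3 with rfl | rfl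
          · rw [if_pos rfl] at h7
            have h9 : Inner D 1 K c' 1 e 0 u := h5.mono le_rfl (by omega)
            obtain ⟨n'', h10⟩ := h9.hrun h7
            exact ⟨_, _, hstep h10, (Sim.refl _).append ((Sim.refl _).append h8)⟩
          · rw [if_neg (by omega)] at h7
            obtain ⟨u', h9, h10⟩ := traverse hp j (visited D k) hV
              (fun e y w _ _ h' => ⟨y, _, h'.reach hr1⟩) h5
            rw [← hK] at h9
            obtain ⟨n'', h11⟩ := h9.hrun h7
            exact ⟨_, _, hstep h11, (Sim.refl _).append (h10.append h8)⟩
        · have h7 : HRun D K 0 e x1 [] := HRun.halt (by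
            rw [sym_inner h3 (by omega)]
            exact h6)
          have h9 : Inner D 1 K c' 1 e x1 w1 := h5.mono le_rfl (by omega)
          obtain ⟨n'', h10⟩ := h9.hrun h7
          rw [List.append_nil] at h10
          exact ⟨_, _, hstep h10, (Sim.refl _).append (Sim.refl _)⟩
      · have e1 : ∀ q : ℕ, mv q 0 m = 0 := by
          intro q
          unfold mv
          cases m with
          | left => simp only [Move.val]; rw [min_eq_right (by omega), max_eq_left (by omega)]
          | stay => simp only [Move.val]; rw [min_eq_right (by omega), max_eq_left (by omega)]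
          | right => exact absurd rfl hm
        rw [e1] at h2 hr1
        obtain ⟨n', w', h3, h4⟩ := ih n0 (by omega) c' 0 w1 _ (Or.inl rfl) hr1 h2
        rw [if_pos rfl] at h3
        refine ⟨n' + 1, o ++ w', HRun.step (m := m) (by rw [sym_zero]; exact h1) ?_,
          (Sim.refl _).append h4⟩
        rw [e1]
        exact h3
    · -- at the right end
      rw [if_neg (by omega)]
      rw [sym_end] at h1
      by_cases hm : m = .left
      · subst hm
        have e1 : ∀ q : ℕ, mv q ((q : ℤ) + 1) .left = q := by
          intro q
          unfold mv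
          simp only [Move.val]
          rw [min_eq_right (by omega), max_eq_right (by omega)]
          ring
        rw [e1 k] at h2 hr1
        have hstep : ∀ {n' : ℕ} {w' : List (Fin b)}, HRun D K n' c' K w' →
            HRun D K (n' + 1) c ((K : ℤ) + 1) (o ++ w') := by
          intro n' w' h'
          refine HRun.step (m := .left) (by rw [sym_end]; exact h1) ?_
          rw [e1 K]
          exact h'
        have hshift : ∀ {e : C} {x1 : ℤ} {u : List (Fin b)}, Inner D 1 k c' k e x1 u →
            Inner D 1 K c' K e (x1 + d) u := by
          intro e x1 u h'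
          have h'' := (h'.shift (d : ℤ)).mono (lo' := 1) (hi' := (K : ℤ)) (by omega) (by omega)
          rw [← hKd] at h''
          exact h''
        rcases h2.decompose hk1Z le_rfl with ⟨e, x1, u, v, n1, h3, h4, h5, h6, rfl⟩ |
          ⟨e, x1, h3, h4, h5, h6⟩
        · have hr2 := h5.reach hr1
          obtain ⟨n', v', h7, h8⟩ := ih n1 (by omega) e x1 v _ h3 hr2 h6
          rcases h3 with rfl | rfl
          · rw [if_pos rfl] at h7
            have h9 := h5.mirror ((k : ℤ) + 1)
            rw [show (k : ℤ) + 1 - k = 1 by ring, show (k : ℤ) + 1 - 1 = k by ring,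
              sub_zero] at h9
            obtain ⟨u', h10, h11⟩ := traverse hp j (visited D k) hV (by
              intro e y w _ _ h'
              have h'' := h'.of_mirror ((k : ℤ) + 1)
              rw [show (k : ℤ) + 1 - k = 1 by ring, show (k : ℤ) + 1 - 1 = k by ring] at h''
              exact ⟨_, _, h''.reach hr1⟩) h9
            rw [← hK] at h10
            have h12 := h10.of_mirror ((K : ℤ) + 1)
            rw [show (K : ℤ) + 1 - K = 1 by ring, show (K : ℤ) + 1 - 1 = K by ring,
              sub_self] at h12
            obtain ⟨n'', h13⟩ := h12.hrun h7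
            exact ⟨_, _, hstep h13, (Sim.refl _).append (h11.append h8)⟩
          · rw [if_neg (by omega)] at h7
            have h9 := hshift h5
            rw [show (k : ℤ) + 1 + d = K + 1 by omega] at h9
            obtain ⟨n'', h10⟩ := h9.hrun h7
            exact ⟨_, _, hstep h10, (Sim.refl _).append ((Sim.refl _).append h8)⟩
        · have h7 : HRun D K 0 e (x1 + d) [] := HRun.halt (by
            rw [sym_inner (by omega) (by omega)]
            exact h6)
          obtain ⟨n'', h10⟩ := (hshift h5).hrun h7
          rw [List.append_nil] at h10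
          exact ⟨_, _, hstep h10, (Sim.refl _).append (Sim.refl _)⟩
      · have e1 : ∀ q : ℕ, mv q ((q : ℤ) + 1) m = (q : ℤ) + 1 := by
          intro q
          unfold mv
          cases m with
          | left => exact absurd rfl hm
          | stay => simp only [Move.val]; rw [min_eq_left (by omega), max_eq_right (by omega)]
          | right => simp only [Move.val]; rw [min_eq_left (by omega), max_eq_right (by omega)]
        rw [e1] at h2 hr1
        obtain ⟨n', w', h3, h4⟩ := ih n0 (by omega) c' _ w1 _ (Or.inr rfl) hr1 h2
        rw [if_neg (by omega)] at h3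
        refine ⟨n' + 1, o ++ w', HRun.step (m := m) (by rw [sym_end]; exact h1) ?_,
          (Sim.refl _).append h4⟩
        rw [e1]
        exact h3

/-- On every input `k ≥ 1` the device halts and prints, in base `b`, a prime `≥ b ^ (k - 1)`
(that is, a prime with at least `k` digits); `msb` tells whether the digits are printed with the
most significant digit first or last. -/
def Solves (D : Device b C) (msb : Bool) : Prop :=
  ∀ k : ℕ, 1 ≤ k → ∃ w, Outputs D k w ∧ (read msb b w).Prime ∧ b ^ (k - 1) ≤ read msb b w

/-- A prime-finding device has at least `k` internal configurations on input `k`. -/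
theorem device_bound (hb : 2 ≤ b) {D : Device b C} {msb : Bool} (h : Solves D msb) {k : ℕ}
    (hk : 1 ≤ k) : (k : ℕ∞) ≤ (visited D k).encard := by
  by_contra hV
  rw [not_le] at hV
  obtain ⟨w, h1, h2, -⟩ := h k hk
  obtain ⟨p, hp⟩ : ∃ p, p = read msb b w := ⟨_, rfl⟩
  rw [← hp] at h2
  obtain ⟨n, h3⟩ := outputs_iff.1 h1
  obtain ⟨n', w', h4, h5⟩ := simulate h2 p hV rfl n D.start 0 w [] (Or.inl rfl) Reach.start h3
  rw [if_pos rfl] at h4
  have h6 := outputs_iff.2 ⟨n', h4⟩
  have hf : 0 < k ! * p ! := Nat.mul_pos (Nat.factorial_pos k) (Nat.factorial_pos p)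
  have hge : p ≤ p * (k ! * p !) := Nat.le_mul_of_pos_right p hf
  obtain ⟨w'', h7, h8, h9⟩ := h (k + p * (k ! * p !)) (by omega)
  rw [h7.unique h6] at h8 h9
  have h10 : p ∣ read msb b w' := h5.dvd msb (by rw [hp])
  have h11 := (Nat.prime_dvd_prime_iff_eq h2 h8).1 h10
  rw [← h11] at h9
  have h12 : 2 ^ p ≤ b ^ (k + p * (k ! * p !) - 1) :=
    (Nat.pow_le_pow_left hb p).trans (Nat.pow_le_pow_right (by omega) (by omega))
  exact absurd (h12.trans h9) (not_le.2 Nat.lt_two_pow_self)

end Pool.Agent.LibPF14
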