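import Mathlib
import Pool.Agent.LibPF14.Simulate

/-!
# The lower bound for the space of multi-tape Turing machines
-/

set_option autoImplicit false

namespace Pool.Agent.LibPF14

open Nat Function

/-- A deterministic Turing machine with a read-only input tape, `m` work tapes and a write-only
output tape: `step q s a = some (q', d, c, o)` means that in the state `q`, scanning `s` on the
input tape and `a i` on the `i`-th work tape, it prints the digits `o`, moves its input head
by `d`, writes `(c i).1` on the `i`-th work tape and moves the head of this tape by `(c i).2`,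
and passes to the state `q'`; `none` means that it halts. -/
structure OffTM (b m : ℕ) (Q Γ : Type*) where
  start : Q
  blank : Γ
  step : Q → Sym → (Fin m → Γ) → Option (Q × Move × (Fin m → Γ × Move) × List (Fin b))

variable {b m : ℕ} {Q Γ : Type*}

/-- The device of a Turing machine; an internal configuration consists of the state, the
positions of the heads on the work tapes and the contents of the work tapes. -/
def OffTM.toDevice (M : OffTM b m Q Γ) : Device b (Q × (Fin m → ℤ) × (Fin m → ℤ → Γ)) where
  start := (M.start, fun _ => 0, fun _ _ => M.blank)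
  step c s :=
    (M.step c.1 s (fun i => c.2.2 i (c.2.1 i))).map fun r =>
      ((r.1, fun i => c.2.1 i + (r.2.2.1 i).2.val,
        fun i => update (c.2.2 i) (c.2.1 i) (r.2.2.1 i).1), r.2.1, r.2.2.2)

/-- On input `k` the heads of the work tapes stay on the cells `-s, …, s`. -/
def WithinSpace (M : OffTM b m Q Γ) (k s : ℕ) : Prop :=
  ∀ c ∈ visited M.toDevice k, ∀ i, |c.2.1 i| ≤ s

theorem blank_outside {M : OffTM b m Q Γ} {k s : ℕ} (hs : WithinSpace M k s)
    {c : Q × (Fin m → ℤ) × (Fin m → ℤ → Γ)} {x : ℤ} {w : List (Fin b)}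
    (h : Reach M.toDevice k c x w) : ∀ (i : Fin m) (z : ℤ), (s : ℤ) < |z| →
      c.2.2 i z = M.blank := by
  induction h with
  | start => exact fun i z _ => rfl
  | @step c x w c' d o h1 h2 ih =>
    intro i z hz
    simp only [OffTM.toDevice, Option.map_eq_some_iff, Prod.mk.injEq] at h2
    obtain ⟨r, -, rfl, -, -⟩ := h2
    have h3 := hs c ⟨x, w, h1⟩ i
    simp only
    rw [update_of_ne, ih i z hz]
    rintro rfl
    omega

theorem visited_encard_le [Fintype Q] [Fintype Γ] {M : OffTM b m Q Γ} {k s : ℕ}
    (hs : WithinSpace M k s) : (visited M.toDevice k).encard ≤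
      ((Fintype.card Q * (2 * s + 1) ^ m * Fintype.card Γ ^ (m * (2 * s + 1)) : ℕ) : ℕ∞) := by
  classical
  set F : Q × (Fin m → ℤ) × (Fin m → ℤ → Γ) →
      Q × (Fin m → Fin (2 * s + 1)) × (Fin m × Fin (2 * s + 1) → Γ) := fun c =>
    (c.1, fun i => Fin.ofNat (2 * s + 1) (c.2.1 i + s).toNat,
      fun r => c.2.2 r.1 ((r.2 : ℕ) - (s : ℤ))) with hF
  have hinj : Set.InjOn F (visited M.toDevice k) := by
    rintro ⟨q, h, t⟩ hc ⟨q', h', t'⟩ hc' he
    obtain ⟨x, w, hr⟩ := id hc
    obtain ⟨x', w', hr'⟩ := id hc'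
    simp only [hF, Prod.mk.injEq] at he
    obtain ⟨rfl, he1, he2⟩ := he
    have e1 : h = h' := by
      funext i
      have a1 := abs_le.1 (hs _ hc i)
      have a2 := abs_le.1 (hs _ hc' i)
      simp only at a1 a2
      have e := congrArg Fin.val (congrFun he1 i)
      simp only [Fin.ofNat] at e
      rw [Nat.mod_eq_of_lt (by omega), Nat.mod_eq_of_lt (by omega)] at e
      omega
    have e2 : t = t' := by
      funext i z
      by_cases hz : (s : ℤ) < |z|
      · have b1 := blank_outside hs hr i z hz
        have b2 := blank_outside hs hr' i z hz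
        simp only at b1 b2
        rw [b1, b2]
      · have hz' := abs_le.1 (not_lt.1 hz)
        have e := congrFun he2 (i, ⟨(z + s).toNat, by omega⟩)
        simp only at e
        have ez : (((z + s).toNat : ℕ) : ℤ) - s = z := by omega
        rw [ez] at e
        exact e
    rw [e1, e2]
  rw [← hinj.encard_image]
  refine (Set.encard_le_encard (Set.subset_univ _)).trans (le_of_eq ?_)
  rw [← Finset.coe_univ, Set.encard_coe_eq_coe_finsetCard, Finset.card_univ]
  congr 1
  rw [Fintype.card_prod, Fintype.card_prod, Fintype.card_fun, Fintype.card_fun,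
    Fintype.card_prod, Fintype.card_fin, Fintype.card_fin, mul_assoc]

/-- A prime-finding Turing machine with `m` work tapes which uses `s` cells on each side of the
starting cells has `k ≤ |Q| (2 s + 1) ^ m |Γ| ^ (m (2 s + 1))`. -/
theorem space_bound (hb : 2 ≤ b) [Fintype Q] [Fintype Γ] {M : OffTM b m Q Γ} {msb : Bool}
    (h : Solves M.toDevice msb) {k s : ℕ} (hk : 1 ≤ k) (hs : WithinSpace M k s) :
    k ≤ Fintype.card Q * (2 * s + 1) ^ m * Fintype.card Γ ^ (m * (2 * s + 1)) := by
  have h1 := (device_bound hb h hk).trans (visited_encard_le hs)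
  exact_mod_cast h1

theorem space_log_bound (hb : 2 ≤ b) [Fintype Q] [Fintype Γ] {M : OffTM b m Q Γ} {msb : Bool}
    (h : Solves M.toDevice msb) {k s : ℕ} (hk : 1 ≤ k) (hs : WithinSpace M k s) :
    Real.log k ≤ (Real.log (Fintype.card Q) + 2 * m * (1 + Real.log (Fintype.card Γ))) *
      (s + 1) := by
  have h1 := space_bound hb h hk hs
  have hQ : 0 < Fintype.card Q := Fintype.card_pos_iff.2 ⟨M.start⟩
  have hΓ : 0 < Fintype.card Γ := Fintype.card_pos_iff.2 ⟨M.blank⟩
  have hQ' : (0 : ℝ) < Fintype.card Q := by exact_mod_cast hQ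
  have hΓ' : (0 : ℝ) < Fintype.card Γ := by exact_mod_cast hΓ
  have hk' : (0 : ℝ) < k := by exact_mod_cast hk
  have h2 : (k : ℝ) ≤ Fintype.card Q * (2 * s + 1) ^ m * Fintype.card Γ ^ (m * (2 * s + 1)) := by
    exact_mod_cast h1
  have h3 := Real.log_le_log hk' h2
  have hs0 : (0 : ℝ) ≤ s := Nat.cast_nonneg s
  have hm0 : (0 : ℝ) ≤ m := Nat.cast_nonneg m
  have h2s : (0 : ℝ) < 2 * s + 1 := by positivity
  rw [Real.log_mul (by positivity) (by positivity), Real.log_mul (by positivity) (by positivity),
    Real.log_pow, Real.log_pow] at h3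
  have h4 : Real.log (2 * s + 1) ≤ 2 * s := by
    have := Real.log_le_sub_one_of_pos h2s
    linarith
  have h5 : 0 ≤ Real.log (Fintype.card Q) := Real.log_nonneg (by exact_mod_cast hQ)
  have h6 : 0 ≤ Real.log (Fintype.card Γ) := Real.log_nonneg (by exact_mod_cast hΓ)
  push_cast at h3
  have h7 : (m : ℝ) * Real.log (2 * s + 1) ≤ m * (2 * s) := mul_le_mul_of_nonneg_left h4 hm0
  have h8 : 0 ≤ (m : ℝ) * Real.log (Fintype.card Γ) := mul_nonneg hm0 h6
  have h9 : 0 ≤ (s : ℝ) * Real.log (Fintype.card Q) := mul_nonneg hs0 h5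
  nlinarith

end Pool.Agent.LibPF14
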